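import Mathlib
import Pool.Agent.H706R2.DigitChange2

set_option autoImplicit false

open Filter

/-- Digit changes of the multiples `q^n x`, `n < M`, of an irrational algebraic number `x`: for
`b, q ≥ 2` with `log b / log q` irrational there is `s > 1` (equal to `log 4 / log 3 > 1.2618` if
`b, q` are coprime) such that for every irrational algebraic `x` there is `c > 0` with: for all large
`M`, the number of pairs `(n, i)`, `0 ≤ n, i < M`, such that the `(i+1)`-st and `(i+2)`-nd base-`b`
digits after the point of `q^n x` are different is at least `c M^s`. -/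
theorem Pool.Agent.Results.MP_f2f914_nt.DigitChangesMultiples.result :
    ∀ b q : ℕ, 2 ≤ b → 2 ≤ q → Irrational (Real.log (b : ℝ) / Real.log (q : ℝ)) →
      ∃ s : ℝ, 1 < s ∧ (Nat.Coprime b q → s = Real.log 4 / Real.log 3) ∧
        ∀ x : ℝ, Irrational x → IsAlgebraic ℚ x →
          ∃ c : ℝ, 0 < c ∧ ∀ᶠ M : ℕ in atTop, c * (M : ℝ) ^ s ≤
            ((∑ n ∈ Finset.range M, ((Finset.range M).filter (fun i : ℕ =>
              ⌊(b : ℝ) ^ (i + 1) * ((q : ℝ) ^ n * x)⌋ % (b : ℤ) ≠
                ⌊(b : ℝ) ^ (i + 2) * ((q : ℝ) ^ n * x)⌋ % (b : ℤ))).card : ℕ) : ℝ) := by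
  intro b q hb hq hirr
  set r : ℝ := 1 / (1 + max (b : ℝ) (q : ℝ)) with hr
  have hmax : 0 < 1 + max (b : ℝ) (q : ℝ) := by positivity
  have hr0 : 0 < r := by positivity
  have hrb : ((b : ℝ) + 1) * r ≤ 1 := by
    rw [hr, mul_one_div, div_le_one hmax]
    have := le_max_left (b : ℝ) (q : ℝ)
    linarith
  have hrq : ((q : ℝ) + 1) * r ≤ 1 := by
    rw [hr, mul_one_div, div_le_one hmax]
    have := le_max_right (b : ℝ) (q : ℝ)
    linarith
  have hlq : 0 < Real.log q := Real.log_pos (by exact_mod_cast (by omega : 1 < q))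
  have hlb : 0 < Real.log b := Real.log_pos (by exact_mod_cast (by omega : 1 < b))
  have hlt : ∀ C : ℕ, 2 ≤ C → 1 < Real.log (C + 1) / Real.log C := by
    intro C hC
    have hCR : (2 : ℝ) ≤ C := by exact_mod_cast hC
    have h1 : 0 < Real.log (C : ℝ) := Real.log_pos (by linarith)
    have h2 : Real.log (C : ℝ) < Real.log (C + 1) := Real.log_lt_log (by linarith) (by linarith)
    rw [lt_div_iff₀ h1]; linarith
  by_cases hco : Nat.Coprime b q
  · have hsc := Pool.Agent.H706R2.scales_coprime hb hq hco hrb hrq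
    have e : Real.log (((3 : ℕ) : ℝ) + 1) / Real.log ((3 : ℕ) : ℝ)
        = Real.log 4 / Real.log 3 := by norm_num
    refine ⟨Real.log 4 / Real.log 3, ?_, fun _ => rfl, ?_⟩
    · rw [← e]; exact hlt 3 (by norm_num)
    · intro x hx hx'
      rw [← e]
      exact Pool.Agent.H706R2.changes_main hb hq hr0 hrb (by norm_num) (by linarith) hsc hx hx'
  · obtain ⟨C, c, hC, hc, hsc⟩ := Pool.Agent.H706R2.scales_general hb hq hirr hrb hrq
    refine ⟨Real.log (C + 1) / Real.log C, hlt C (by omega), fun h => absurd h hco, ?_⟩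
    intro x hx hx'
    exact Pool.Agent.H706R2.changes_main hb hq hr0 hrb (by omega) hc hsc hx hx'
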