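import Pool.Agent.H949R2.Final

set_option autoImplicit false

open Finset Filter Pool.Agent.H949R2

namespace Pool.Agent.Results.MP_f2f914_nt.DigitSumFactorial

/-- Let `ξ` be a real irrational root of an integer polynomial `P` of degree `D` with leading
coefficient `a > 0`, and `b ≥ 2`.  If `κ > 0` is a lower bound for the average of the least
positive residues along every cycle of multiplication by `b` modulo `a * D!`, then for every
`ε > 0` and all large `N` the sum `S(N)` of the first `N` base-`b` digits of `ξ` satisfies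
`S(N)^D ≥ (1-ε) (b-1) (κ/a) N`.  An admissible `κ` is
`a D! / (max(a,D) (b-1) (⌊log_b(a D!)⌋+1))`; in base 2, for `a = 1` and degrees 2, 3, 4, 5 the
values `κ = 2, 3, 12, 30` are admissible. -/
theorem result :
    (∀ b : ℕ, 2 ≤ b → ∀ ξ : ℝ, Irrational ξ → ∀ P : Polynomial ℤ, Polynomial.aeval ξ P = 0 →
      ∀ a : ℕ, 0 < a → P.leadingCoeff = (a : ℤ) →
        (∀ κ : ℝ, 0 < κ → CycleAvg b (a * P.natDegree.factorial) κ →
          ∀ ε : ℝ, 0 < ε → ∀ᶠ N : ℕ in atTop,
            (1 - ε) * (((b : ℝ) - 1) * κ / a) * (N : ℝ) ≤ (digitSum b ξ N : ℝ) ^ P.natDegree) ∧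
        CycleAvg b (a * P.natDegree.factorial)
          (((a * P.natDegree.factorial : ℕ) : ℝ) / ((max a P.natDegree : ℕ) *
            (((b : ℝ) - 1) * (Nat.log b (a * P.natDegree.factorial) + 1))))) ∧
    CycleAvg 2 2 2 ∧ CycleAvg 2 6 3 ∧ CycleAvg 2 24 12 ∧ CycleAvg 2 120 30 := by
  refine ⟨?_, cyc2, cyc6, cyc24, cyc120⟩
  intro b hb ξ hξ P hP a ha hlead
  refine ⟨?_, ?_⟩
  · intro κ hκ0 hκ ε hε
    exact main_ineq b hb ξ hξ P hP a ha hlead κ hκ0 hκ ε hε
  · apply cycleAvg_general b _ _ hb (Nat.mul_pos ha (Nat.factorial_pos _))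
      (lt_of_lt_of_le ha (le_max_left _ _))
    intro q hq hqd
    rcases (Nat.Prime.dvd_mul hq).1 hqd with h | h
    · exact le_trans (Nat.le_of_dvd ha h) (le_max_left _ _)
    · exact le_trans ((Nat.Prime.dvd_factorial hq).1 h) (le_max_right _ _)

end Pool.Agent.Results.MP_f2f914_nt.DigitSumFactorial
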