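import Mathlib
import Pool.Agent.H349R2.Defs
import Pool.Agent.H349R2.Main

open Filter

namespace Pool.Agent.Results.MP_f2f914_nt.EpsNormalTranslates

open Pool.Agent.H349R2

/-- For every `R` and all `ε, δ > 0` there are `q` and `M0` such that for every irrational real
algebraic `ξ`: all the numbers `ξ + a/q` are irrational and algebraic; for every `M ≥ M0`, for all
but at most `ε q` of the residues `a < q`, the number `x = ξ + a/q` has discrepancy at most `ε`
along `(x r^n)_{n ≤ N}`, simultaneously for all bases `2 ≤ r ≤ R` and all `N ∈ [δ M, M]`; and one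
single `a < q` has this property for infinitely many `M`. -/
theorem result (R : ℕ) (ε δ : ℝ) (hε : 0 < ε) (hδ : 0 < δ) :
    ∃ q M0 : ℕ, 0 < q ∧ ∀ ξ : ℝ, Irrational ξ → IsAlgebraic ℚ ξ →
      (∀ a : ℕ, Irrational (ξ + (a : ℝ) / q) ∧ IsAlgebraic ℚ (ξ + (a : ℝ) / q)) ∧
      (∀ M : ℕ, M0 ≤ M → ∃ bad : Finset ℕ, (bad.card : ℝ) ≤ ε * q ∧
        ∀ a : ℕ, a < q → a ∉ bad → ∀ N : ℕ, δ * M ≤ N → N ≤ M →
          ∀ r : ℕ, 2 ≤ r → r ≤ R → EpsEquidist ε (ξ + (a : ℝ) / q) r N) ∧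
      ∃ a : ℕ, a < q ∧ ∃ᶠ M : ℕ in atTop, ∀ N : ℕ, δ * M ≤ N → N ≤ M →
          ∀ r : ℕ, 2 ≤ r → r ≤ R → EpsEquidist ε (ξ + (a : ℝ) / q) r N := by
  obtain ⟨q, M0, hq, huni⟩ := uniform R (min ε (1 / 2)) δ (lt_min hε (by norm_num)) hδ
  have hqR : (0:ℝ) < q := by exact_mod_cast hq
  refine ⟨q, M0, hq, ?_⟩
  intro ξ hirr halg
  refine ⟨?_, ?_, ?_⟩
  · intro a
    have e : (ξ + (a : ℝ) / q) = ξ + (((a : ℚ) / q : ℚ) : ℝ) := by push_cast; rfl
    rw [e]
    refine ⟨hirr.add_ratCast _, ?_⟩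
    exact halg.add (isAlgebraic_algebraMap ((a : ℚ) / q : ℚ))
  · intro M hM
    obtain ⟨bad, hb, hgood⟩ := huni ξ M hM
    refine ⟨bad, hb.trans ?_, ?_⟩
    · exact mul_le_mul_of_nonneg_right (min_le_left _ _) hqR.le
    · intro a ha hab N hN1 hN2 r hr hrR
      exact (hgood a ha hab N hN1 hN2 r hr hrR).mono (min_le_left _ _)
  · by_contra hcon
    push Not at hcon
    have h1 : ∀ a ∈ Finset.range q, ∀ᶠ M : ℕ in atTop, ¬ (∀ N : ℕ, δ * M ≤ N → N ≤ M →
          ∀ r : ℕ, 2 ≤ r → r ≤ R → EpsEquidist ε (ξ + (a : ℝ) / q) r N) := by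
      intro a ha
      have := hcon a (Finset.mem_range.mp ha)
      simpa [not_frequently] using this
    have h2 := (Finset.eventually_all (Finset.range q)).2 h1
    obtain ⟨M, hM1, hM2⟩ := (h2.and (eventually_ge_atTop M0)).exists
    obtain ⟨bad, hb, hgood⟩ := huni ξ M hM2
    have hsub : Finset.range q ⊆ bad := by
      intro a ha
      by_contra hab
      apply hM1 a ha
      intro N hN1 hN2 r hr hrR
      exact (hgood a (Finset.mem_range.mp ha) hab N hN1 hN2 r hr hrR).mono (min_le_left _ _)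
    have h3 := Finset.card_le_card hsub
    rw [Finset.card_range] at h3
    have h4 : (q:ℝ) ≤ bad.card := by exact_mod_cast h3
    have h5 : min ε (1 / 2) * q ≤ (1 / 2) * q :=
      mul_le_mul_of_nonneg_right (min_le_right _ _) hqR.le
    linarith

end Pool.Agent.Results.MP_f2f914_nt.EpsNormalTranslates
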